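import Mathlib

/-! # The variance of primes in short intervals: basic inequalities -/

set_option autoImplicit false

open MeasureTheory Set Filter Topology

namespace Pool.Agent.Q85.PN

/-- `ψ (x)` -/
noncomputable def psi (x : ℝ) : ℝ := ∑ n ∈ Finset.Icc 1 ⌊x⌋₊, ArithmeticFunction.vonMangoldt n

/-- `ψ (x + h) - ψ (x) - h` -/
noncomputable def E (x h : ℝ) : ℝ := psi (x + h) - psi x - h

/-- `∫_0^X (ψ (x + h) - ψ (x) - h)² dx` -/
noncomputable def J (X h : ℝ) : ℝ := ∫ x in (0 : ℝ)..X, E x h ^ 2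

lemma psi_mono : Monotone psi := by
  intro x y hxy
  unfold psi
  refine Finset.sum_le_sum_of_subset_of_nonneg ?_ fun _ _ _ =>
    ArithmeticFunction.vonMangoldt_nonneg
  exact Finset.Icc_subset_Icc le_rfl (Nat.floor_le_floor hxy)

lemma psi_nonneg (x : ℝ) : 0 ≤ psi x :=
  Finset.sum_nonneg fun _ _ => ArithmeticFunction.vonMangoldt_nonneg

lemma E_meas (h : ℝ) : Measurable fun x => E x h := by
  unfold E
  have h1 : Measurable psi := psi_mono.measurable
  exact ((h1.comp (measurable_id.add_const h)).sub h1).sub_const h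

lemma E_diff {x h X : ℝ} (hx : 0 ≤ x) (hh : 0 ≤ h) (hX : x + h ≤ X) (hX1 : 1 ≤ X) :
    0 ≤ psi (x + h) - psi x ∧ psi (x + h) - psi x ≤ (h + 1) * Real.log X := by
  have hlog : 0 ≤ Real.log X := Real.log_nonneg hX1
  constructor
  · have := psi_mono (show x ≤ x + h by linarith)
    linarith
  · have hf : ⌊x⌋₊ ≤ ⌊x + h⌋₊ := Nat.floor_le_floor (by linarith)
    have h1 : psi (x + h) - psi x =
        ∑ n ∈ Finset.Ioc ⌊x⌋₊ ⌊x + h⌋₊, ArithmeticFunction.vonMangoldt n := by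
      unfold psi
      have h2 : Finset.Icc 1 ⌊x + h⌋₊ = Finset.Icc 1 ⌊x⌋₊ ∪ Finset.Ioc ⌊x⌋₊ ⌊x + h⌋₊ := by
        ext n
        simp only [Finset.mem_Icc, Finset.mem_union, Finset.mem_Ioc]
        omega
      have h3 : Disjoint (Finset.Icc 1 ⌊x⌋₊) (Finset.Ioc ⌊x⌋₊ ⌊x + h⌋₊) := by
        rw [Finset.disjoint_left]
        intro n hn hn'
        rw [Finset.mem_Icc] at hn
        rw [Finset.mem_Ioc] at hn'
        omega
      rw [h2, Finset.sum_union h3]
      ring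
    rw [h1]
    have h4 : ∀ n ∈ Finset.Ioc ⌊x⌋₊ ⌊x + h⌋₊, ArithmeticFunction.vonMangoldt n ≤ Real.log X := by
      intro n hn
      rw [Finset.mem_Ioc] at hn
      refine ArithmeticFunction.vonMangoldt_le_log.trans ?_
      have hn0 : 0 < n := by omega
      refine Real.log_le_log (by exact_mod_cast hn0) ?_
      have h5 : (n : ℝ) ≤ ⌊x + h⌋₊ := by exact_mod_cast hn.2
      have h6 := Nat.floor_le (show 0 ≤ x + h by linarith)
      linarith
    refine (Finset.sum_le_sum h4).trans ?_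
    rw [Finset.sum_const, Nat.card_Ioc, nsmul_eq_mul]
    refine mul_le_mul_of_nonneg_right ?_ hlog
    rw [Nat.cast_sub hf]
    have h5 := Nat.floor_le (show 0 ≤ x + h by linarith)
    have h6 := Nat.lt_floor_add_one x
    linarith

lemma E_bdd {x h X : ℝ} (hx : 0 ≤ x) (hh : 0 ≤ h) (hX : x + h ≤ X) (hX1 : 1 ≤ X) :
    |E x h| ≤ (h + 1) * (Real.log X + 1) := by
  obtain ⟨h1, h2⟩ := E_diff hx hh hX hX1
  have hlog : 0 ≤ Real.log X := Real.log_nonneg hX1
  unfold E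
  rw [abs_le]
  constructor <;> nlinarith

lemma E_int {h : ℝ} (hh : 0 ≤ h) {a b : ℝ} (ha : 0 ≤ a) (hab : a ≤ b) :
    IntervalIntegrable (fun x => E x h ^ 2) volume a b := by
  rw [intervalIntegrable_iff, uIoc_of_le hab]
  obtain ⟨K, hK⟩ : ∃ K : ℝ, K = ((h + 1) * (Real.log (b + h + 1) + 1)) ^ 2 := ⟨_, rfl⟩
  refine Measure.integrableOn_of_bounded (M := K) measure_Ioc_lt_top.ne
    ((E_meas h).pow_const 2).aestronglyMeasurable ?_
  refine (ae_restrict_iff' measurableSet_Ioc).2 (ae_of_all _ fun x hx => ?_)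
  rw [Real.norm_eq_abs, abs_pow, hK]
  exact pow_le_pow_left₀ (abs_nonneg _)
    (E_bdd (by linarith [hx.1]) hh (by linarith [hx.2]) (by linarith)) 2

lemma J_nonneg {X : ℝ} (hX : 0 ≤ X) (h : ℝ) : 0 ≤ J X h :=
  intervalIntegral.integral_nonneg hX fun _ _ => sq_nonneg _

lemma J_mono {X X' h : ℝ} (hh : 0 ≤ h) (hX : 0 ≤ X) (hXX : X ≤ X') : J X h ≤ J X' h := by
  unfold J
  rw [← intervalIntegral.integral_add_adjacent_intervals (E_int hh le_rfl hX) (E_int hh hX hXX)]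
  have : 0 ≤ ∫ x in X..X', E x h ^ 2 :=
    intervalIntegral.integral_nonneg hXX fun _ _ => sq_nonneg _
  linarith

lemma J_triv {X h : ℝ} (hX : 0 ≤ X) (hh : 0 ≤ h) {Y : ℝ} (hY : X + h ≤ Y) (hY1 : 1 ≤ Y) :
    J X h ≤ X * ((h + 1) * (Real.log Y + 1)) ^ 2 := by
  have h1 := intervalIntegral.integral_mono_on hX (E_int hh le_rfl hX)
    (continuous_const.intervalIntegrable (μ := volume)
      (u := fun _ : ℝ => ((h + 1) * (Real.log Y + 1)) ^ 2) 0 X) fun x hx => by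
      rw [← sq_abs]
      exact pow_le_pow_left₀ (abs_nonneg _) (E_bdd hx.1 hh (by linarith [hx.2]) hY1) 2
  rwa [intervalIntegral.integral_const, smul_eq_mul, sub_zero] at h1

/-- the shifted integral -/
lemma J_shift {X h h' : ℝ} (hX : 0 ≤ X) (hh : 0 ≤ h) (hh' : 0 ≤ h') :
    ∫ x in (0 : ℝ)..X, E (x + h') h ^ 2 ≤ J (X + h') h := by
  rw [intervalIntegral.integral_comp_add_right (fun x => E x h ^ 2), zero_add]
  unfold J
  rw [← intervalIntegral.integral_add_adjacent_intervals (E_int hh le_rfl hh')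
    (E_int hh hh' (by linarith : h' ≤ X + h'))]
  have : 0 ≤ ∫ x in (0 : ℝ)..h', E x h ^ 2 :=
    intervalIntegral.integral_nonneg hh' fun _ _ => sq_nonneg _
  linarith

lemma sq_add_le {a b η : ℝ} (hη : 0 < η) : (a + b) ^ 2 ≤ (1 + η) * a ^ 2 + (1 + 1 / η) * b ^ 2 := by
  have h1 : (1 + η) * a ^ 2 + (1 + 1 / η) * b ^ 2 - (a + b) ^ 2 = (η * a - b) ^ 2 / η := by
    field_simp
    ring
  have h2 : 0 ≤ (η * a - b) ^ 2 / η := by positivity
  linarith

lemma shift_int {X h h' : ℝ} (hX : 0 ≤ X) (hh : 0 ≤ h) (hh' : 0 ≤ h') :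
    IntervalIntegrable (fun x => E (x + h') h ^ 2) volume 0 X := by
  have := (E_int hh hh' (show h' ≤ X + h' by linarith)).comp_add_right h'
  rwa [sub_self, add_sub_cancel_right] at this

lemma J_add {X h₁ h₂ η : ℝ} (hX : 0 ≤ X) (h1 : 0 ≤ h₁) (h2 : 0 ≤ h₂) (hη : 0 < η) :
    J X (h₁ + h₂) ≤ (1 + η) * J X h₁ + (1 + 1 / η) * J (X + h₁) h₂ := by
  have e1 : ∀ x, E x (h₁ + h₂) = E x h₁ + E (x + h₁) h₂ := by
    intro x
    unfold E
    rw [add_assoc x]
    ring
  have e2 : J X (h₁ + h₂) ≤ ∫ x in (0 : ℝ)..X, ((1 + η) * E x h₁ ^ 2 +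
      (1 + 1 / η) * E (x + h₁) h₂ ^ 2) := by
    unfold J
    refine intervalIntegral.integral_mono_on hX (E_int (by linarith) le_rfl hX)
      (((E_int h1 le_rfl hX).const_mul _).add ((shift_int hX h2 h1).const_mul _)) fun x _ => ?_
    rw [e1]
    exact sq_add_le hη
  rw [intervalIntegral.integral_add ((E_int h1 le_rfl hX).const_mul _)
    ((shift_int hX h2 h1).const_mul _), intervalIntegral.integral_const_mul,
    intervalIntegral.integral_const_mul] at e2
  have e3 := mul_le_mul_of_nonneg_left (J_shift hX h2 h1) (show 0 ≤ 1 + 1 / η by positivity)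
  unfold J at e2 e3 ⊢
  linarith

lemma J_sub {X h₁ h₂ η : ℝ} (hX : 0 ≤ X) (h1 : 0 ≤ h₁) (h2 : 0 ≤ h₂) (hη : 0 < η) :
    J X h₁ ≤ (1 + η) * J X (h₁ + h₂) + (1 + 1 / η) * J (X + h₁) h₂ := by
  have e1 : ∀ x, E x h₁ = E x (h₁ + h₂) + -E (x + h₁) h₂ := by
    intro x
    unfold E
    rw [add_assoc x]
    ring
  have h12 : 0 ≤ h₁ + h₂ := by linarith
  have e2 : J X h₁ ≤ ∫ x in (0 : ℝ)..X, ((1 + η) * E x (h₁ + h₂) ^ 2 +
      (1 + 1 / η) * E (x + h₁) h₂ ^ 2) := by
    unfold J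
    refine intervalIntegral.integral_mono_on hX (E_int h1 le_rfl hX)
      (((E_int h12 le_rfl hX).const_mul _).add ((shift_int hX h2 h1).const_mul _)) fun x _ => ?_
    rw [e1]
    have := sq_add_le (a := E x (h₁ + h₂)) (b := -E (x + h₁) h₂) hη
    rwa [neg_sq] at this
  rw [intervalIntegral.integral_add ((E_int h12 le_rfl hX).const_mul _)
    ((shift_int hX h2 h1).const_mul _), intervalIntegral.integral_const_mul,
    intervalIntegral.integral_const_mul] at e2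
  have e3 := mul_le_mul_of_nonneg_left (J_shift hX h2 h1) (show 0 ≤ 1 + 1 / η by positivity)
  unfold J at e2 e3 ⊢
  linarith

end Pool.Agent.Q85.PN
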