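import Pool.Agent.Q85.PN.Ord

/-! # The asymptotic formula from a net -/

set_option autoImplicit false

open MeasureTheory Set Filter Topology

namespace Pool.Agent.Q85.PN

/-- the order of magnitude -/
theorem order {l : ℝ} (hl : 1 < l) (hl2 : l ≤ 2) (h : Net l) {ε δ : ℝ} (hε : 0 < ε)
    (hε1 : ε < 1) (hδ : 0 < δ) :
    ∀ᶠ X : ℝ in atTop, ∀ H h' : ℝ, X ^ ε ≤ H → H ≤ X ^ (1 - ε) → 0 ≤ h' → h' ≤ H →
      J (2 * X - h') h' ≤ 192 * (h' * X * Real.log X) + δ * (H * X * Real.log X) := by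
  have hlog2 : Real.log 2 < 1 := by linarith [Real.log_two_lt_d9]
  have hlog20 : 0 < Real.log 2 := Real.log_pos (by norm_num)
  have hl0 : 0 < l := by linarith
  have hg : 0 < Real.log l := Real.log_pos hl
  have hgl : Real.log l ≤ Real.log 2 := Real.log_le_log hl0 hl2
  have hlim : Tendsto (fun X : ℝ => Real.log X ^ 2 / X ^ (ε / 8)) atTop (𝓝 0) := by
    have := (isLittleO_log_rpow_rpow_atTop (s := ε / 8) 2 (by positivity)).tendsto_div_nhds_zero
    refine this.congr' ?_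
    filter_upwards with X
    norm_cast
  have hA := (tendsto_id.const_mul_atTop (show (0 : ℝ) < 2 by norm_num)).eventually
    (netA hl h (ε := ε / 32) (η := 1) (by positivity) (by linarith) one_pos le_rfl)
  filter_upwards [hA, eventually_ge_atTop 3, hlim.eventually (gt_mem_nhds
    (show 0 < δ ^ 2 / 10368 by positivity)),
    Real.tendsto_log_atTop.eventually_ge_atTop (32 / ε)] with X hA hX3 hX4 hX5 H h' hH1 hH2 hh0 hhH
  simp only [id] at hA
  have hX0 : 0 < X := by linarith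
  obtain ⟨L, hL⟩ : ∃ L : ℝ, L = Real.log X := ⟨_, rfl⟩
  rw [← hL] at hX4 hX5 ⊢
  have h32 : 32 < 32 / ε := by
    rw [lt_div_iff₀ hε]
    linarith
  have hL1 : 32 ≤ L := by linarith
  rw [div_le_iff₀ hε] at hX5
  obtain ⟨m, hm⟩ : ∃ m : ℝ, m = X ^ (ε / 8) := ⟨_, rfl⟩
  rw [← hm] at hX4
  have hm1 : 1 ≤ m := by rw [hm]; exact Real.one_le_rpow (by linarith) (by positivity)
  have hm0 : 0 < m := by linarith
  have hlogm : Real.log m = ε / 8 * L := by rw [hm, Real.log_rpow hX0, hL]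
  have hMX : X ^ (1 - ε) ≤ X := by
    calc X ^ (1 - ε) ≤ X ^ (1 : ℝ) := Real.rpow_le_rpow_of_exponent_le (by linarith) (by linarith)
      _ = X := Real.rpow_one X
  have hm8 : m ^ 8 = X ^ ε := by
    rw [hm, ← Real.rpow_natCast, ← Real.rpow_mul hX0.le]
    congr 1
    push_cast
    ring
  have hmH : m ^ 8 ≤ H := by rw [hm8]; exact hH1
  have hmH1 : m ≤ H := (le_self_pow₀ hm1 (by norm_num)).trans hmH
  have hlog2X : Real.log (2 * X) = Real.log 2 + L := by
    rw [Real.log_mul (by norm_num) hX0.ne', hL]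
  obtain ⟨B, hB⟩ : ∃ B : ℝ, B = 2 * X * ((m + 1) * (Real.log (2 * X) + 1)) ^ 2 := ⟨_, rfl⟩
  have hnet : ∀ k : ℕ, m / 2 ≤ l ^ k → l ^ k ≤ X ^ (1 - ε) →
      J (2 * X) (l ^ k) ≤ 16 * (X * l ^ k * L) := by
    intro k hk1 hk2
    have e1 : ε / 8 * L - Real.log 2 ≤ k * Real.log l := by
      have := Real.log_le_log (by positivity) hk1
      rw [Real.log_div hm0.ne' (by norm_num), hlogm, Real.log_pow] at this
      exact this
    have e2 : k * Real.log l ≤ (1 - ε) * L := by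
      have := Real.log_le_log (by positivity) hk2
      rw [Real.log_pow, Real.log_rpow hX0, ← hL] at this
      exact this
    have hk0 : 0 ≤ (k : ℝ) * Real.log l := by positivity
    have a1 := (hA k (by rw [hlog2X]; nlinarith) (by rw [hlog2X]; nlinarith)).1
    refine a1.trans ?_
    rw [hlog2X]
    have e3 : Real.log 2 + L - k * Real.log l + Real.log l ≤ 2 * L := by linarith
    have e4 : 0 < l ^ k := by positivity
    calc (1 + 1) * (l * (2 * X) * l ^ k * (Real.log 2 + L - k * Real.log l + Real.log l)) ≤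
        (1 + 1) * (2 * (2 * X) * l ^ k * (2 * L)) := by
          have e5 : 0 ≤ Real.log 2 + L - k * Real.log l + Real.log l := by
            nlinarith
          gcongr
      _ = _ := by ring
  have hbase : ∀ h : ℝ, 0 ≤ h → h ≤ m → J (2 * X - h) h ≤ B := by
    intro h h0 h1
    have hmX : m ≤ X := by
      rw [hm]
      calc X ^ (ε / 8) ≤ X ^ (1 : ℝ) :=
            Real.rpow_le_rpow_of_exponent_le (by linarith) (by linarith)
        _ = X := Real.rpow_one X
    have a1 := J_triv (X := 2 * X - h) (Y := 2 * X) (by linarith) h0 (by linarith) (by linarith)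
    refine a1.trans ?_
    rw [hB]
    have e1 : 0 ≤ Real.log (2 * X) := Real.log_nonneg (by linarith)
    gcongr
    linarith
  obtain ⟨n, hn1, hn2⟩ := steps hm1 hmH1
  have key := rec_bound hl hl2 hm1 hMX (by linarith : (0 : ℝ) ≤ L) hX0.le hnet hbase n h' hh0
    (hhH.trans hn1) (hhH.trans hH2)
  obtain ⟨W, hW⟩ : ∃ W : ℝ, W = (4 / 3 : ℝ) ^ n := ⟨_, rfl⟩
  rw [← hW] at key hn2
  have hW0 : 0 < W := by rw [hW]; positivity
  have hH0 : 0 < H := by linarith
  have hB0 : 0 ≤ B := by rw [hB]; positivity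
  have hB1 : B ≤ 72 * (X * m ^ 2 * L ^ 2) := by
    have e1 : 0 ≤ Real.log (2 * X) := Real.log_nonneg (by linarith)
    rw [hB]
    calc 2 * X * ((m + 1) * (Real.log (2 * X) + 1)) ^ 2 ≤ 2 * X * ((2 * m) * (3 * L)) ^ 2 := by
          have e2 : m + 1 ≤ 2 * m := by linarith
          have e3 : Real.log (2 * X) + 1 ≤ 3 * L := by rw [hlog2X]; linarith
          gcongr
      _ = _ := by ring
  have hsq : (B * W) ^ 2 ≤ (δ * (H * X * L)) ^ 2 := by
    rw [div_lt_iff₀ hm0] at hX4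
    have e1 : (B * W) ^ 2 * m ≤ (72 * (X * m ^ 2 * L ^ 2)) ^ 2 * (2 * H) := by
      calc (B * W) ^ 2 * m = B ^ 2 * (W ^ 2 * m) := by ring
        _ ≤ (72 * (X * m ^ 2 * L ^ 2)) ^ 2 * (2 * H) := by gcongr
    have e2 : (72 * (X * m ^ 2 * L ^ 2)) ^ 2 * (2 * H) ≤ (δ * (H * X * L)) ^ 2 * m := by
      have f1 : 10368 * L ^ 2 ≤ δ ^ 2 * m := by linarith
      have f2 : m ^ 4 ≤ H := (pow_le_pow_right₀ hm1 (by norm_num)).trans hmH
      calc (72 * (X * m ^ 2 * L ^ 2)) ^ 2 * (2 * H) =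
            X ^ 2 * L ^ 2 * H * (m ^ 4 * (10368 * L ^ 2)) := by ring
        _ ≤ X ^ 2 * L ^ 2 * H * (H * (δ ^ 2 * m)) := by gcongr
        _ = _ := by ring
    exact le_of_mul_le_mul_right (e1.trans e2) hm0
  have hBW : B * W ≤ δ * (H * X * L) :=
    (pow_le_pow_iff_left₀ (by positivity) (by positivity) two_ne_zero).1 hsq
  linarith

/-- the asymptotic relation -/
def GM : Prop := ∀ ε η : ℝ, 0 < ε → 0 < η → ∀ᶠ X : ℝ in atTop, ∀ H : ℝ,
  X ^ ε ≤ H → H ≤ X ^ (1 - ε) → |J X H / D X H - 1| ≤ η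

theorem net_GM (h : ∀ δ : ℝ, 0 < δ → ∃ l : ℝ, 1 < l ∧ l < 1 + δ ∧ Net l) : GM := by
  intro ε tol hε htol
  rcases le_or_gt 1 ε with hε1 | hε1
  · filter_upwards [eventually_gt_atTop 1] with X hX H h1 h2
    exfalso
    have h3 : X ^ (1 - ε) < X ^ ε := Real.rpow_lt_rpow_of_exponent_lt hX (by linarith)
    linarith
  obtain ⟨u, hu⟩ : ∃ u : ℝ, u = min 1 tol / 16 := ⟨_, rfl⟩
  have hu0 : 0 < u := by rw [hu]; have := lt_min one_pos htol; positivity
  have hu1 : u ≤ 1 / 16 := by rw [hu]; linarith [min_le_left (1 : ℝ) tol]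
  have hu2 : 16 * u ≤ tol := by rw [hu]; linarith [min_le_right (1 : ℝ) tol]
  obtain ⟨l, hl, hlδ, hN⟩ := h (min u (ε * u ^ 2 / 768)) (lt_min hu0 (by positivity))
  have hlu : l ≤ 1 + u := by linarith [min_le_left u (ε * u ^ 2 / 768)]
  have hlu2 : l - 1 ≤ ε * u ^ 2 / 768 := by linarith [min_le_right u (ε * u ^ 2 / 768)]
  have hl2 : l ≤ 2 := by linarith
  have hl0 : 0 < l := by linarith
  have hg : 0 < Real.log l := Real.log_pos hl
  filter_upwards [netA hl hN (ε := ε / 32) (η := u) (by positivity) (by linarith) hu0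
    (by linarith), order hl hl2 hN hε hε1 (show 0 < ε * u ^ 2 / 4 by positivity),
    eventually_ge_atTop 3, Real.tendsto_log_atTop.eventually_ge_atTop (2 * Real.log l / (u * ε)),
    Real.tendsto_log_atTop.eventually_ge_atTop (2 * Real.log l / ε)]
    with X hA hO hX3 hX4 hX5 H hH1 hH2
  have hX0 : 0 < X := by linarith
  obtain ⟨L, hL⟩ : ∃ L : ℝ, L = Real.log X := ⟨_, rfl⟩
  obtain ⟨g, hgg⟩ : ∃ g : ℝ, g = Real.log l := ⟨_, rfl⟩
  have hH0 : 1 ≤ H := (Real.one_le_rpow (by linarith) hε.le).trans hH1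
  have hHp : 0 < H := by linarith
  have hHX : H ≤ X := by
    refine hH2.trans ?_
    calc X ^ (1 - ε) ≤ X ^ (1 : ℝ) := Real.rpow_le_rpow_of_exponent_le (by linarith) (by linarith)
      _ = X := Real.rpow_one X
  obtain ⟨r, hr⟩ : ∃ r : ℝ, r = Real.log H := ⟨_, rfl⟩
  have hr1 : ε * L ≤ r := by
    have := Real.log_le_log (Real.rpow_pos_of_pos hX0 _) hH1
    rwa [Real.log_rpow hX0, ← hL, ← hr] at this
  have hr2 : r ≤ (1 - ε) * L := by
    have := Real.log_le_log hHp hH2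
    rwa [Real.log_rpow hX0, ← hL, ← hr] at this
  obtain ⟨k, k1, k2, k3, k4⟩ := idx hl hH0
  rw [← hL, ← hgg] at hX4 hX5
  rw [← hgg] at hg
  rw [← hgg, ← hr] at k1 k2
  rw [div_le_iff₀ (by positivity)] at hX4
  rw [div_le_iff₀ hε] at hX5
  have hA' := hA k (by rw [← hL, ← hgg]; nlinarith) (by rw [← hL, ← hgg]; nlinarith)
  rw [← hL, ← hgg] at hA'
  obtain ⟨hA1, X', hX'0, hX'X, hA2⟩ := hA'
  obtain ⟨p, hp⟩ : ∃ p : ℝ, p = l ^ k := ⟨_, rfl⟩
  rw [← hp] at hA1 hA2 k3 k4
  have hp0 : 0 < p := by rw [hp]; positivity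
  obtain ⟨h', hh'⟩ : ∃ h' : ℝ, h' = H - p := ⟨_, rfl⟩
  have q0 : 0 ≤ h' := by linarith
  have q1 : h' ≤ (l - 1) * H := by
    have e1 : (l - 1) * p ≤ (l - 1) * H := mul_le_mul_of_nonneg_left k3 (by linarith)
    rw [hh']
    linarith
  have q2 : p + h' = H := by rw [hh']; ring
  have hDX : D X H = H * X * (L - r) := by
    unfold D
    rw [Real.log_div hX0.ne' hHp.ne', ← hL, ← hr]
  obtain ⟨V, hV⟩ : ∃ V : ℝ, V = H * X * (L - r) := ⟨_, rfl⟩
  have hLr : ε * L ≤ L - r := by linarith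
  have hL0 : 0 < L := by rw [hL]; exact Real.log_pos (by linarith)
  have hLr0 : 0 < L - r := lt_of_lt_of_le (by positivity) hLr
  have hV0 : 0 < V := by rw [hV]; positivity
  -- the error
  have hQ : J (X + p) h' ≤ u ^ 2 / 2 * V := by
    have a1 : J (X + p) h' ≤ J (2 * X - h') h' := J_mono q0 (by linarith) (by linarith)
    have a2 := hO H h' hH1 hH2 q0 (by linarith)
    rw [← hL] at a2
    have a3 : h' * X * L ≤ (l - 1) * H * X * L := by gcongr
    have a4 : (l - 1) * (H * X * L) ≤ ε * u ^ 2 / 768 * (H * X * L) := by gcongr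
    have a5 : ε * L * (H * X) ≤ (L - r) * (H * X) := by gcongr
    have a6 : u ^ 2 * (ε * L * (H * X)) ≤ u ^ 2 * ((L - r) * (H * X)) := by gcongr
    rw [hV]
    linarith
  have hQ2 : (1 + 1 / u) * J (X + p) h' ≤ u * V := by
    have e1 : (1 + 1 / u) * (u ^ 2 / 2 * V) = (u ^ 2 + u) / 2 * V := by field_simp
    have e2 : (1 + 1 / u) * J (X + p) h' ≤ (1 + 1 / u) * (u ^ 2 / 2 * V) := by gcongr
    rw [e1] at e2
    refine e2.trans ?_
    apply mul_le_mul_of_nonneg_right _ hV0.le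
    nlinarith
  have hJ0 : 0 ≤ J X H := J_nonneg hX0.le H
  have hgu : 2 * g ≤ u * (L - r) := by
    have : u * (ε * L) ≤ u * (L - r) := by gcongr
    linarith
  -- the upper bound
  have hup : J X H ≤ (1 + 16 * u) * V := by
    have a1 := J_add (X := X) (h₁ := p) (h₂ := h') (η := u) hX0.le hp0.le q0 hu0
    rw [q2] at a1
    have a2 : l * X * p * (L - k * g + g) ≤ (1 + u) * ((1 + u) * V) := by
      have e1 : L - k * g + g ≤ (1 + u) * (L - r) := by linarith
      have e2 : 0 ≤ L - k * g + g := by linarith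
      calc l * X * p * (L - k * g + g) ≤ (1 + u) * X * H * ((1 + u) * (L - r)) := by gcongr
        _ = _ := by rw [hV]; ring
    have a3 : J X p ≤ (1 + u) * ((1 + u) * ((1 + u) * V)) :=
      hA1.trans (mul_le_mul_of_nonneg_left a2 (by linarith))
    have a4 : (1 + u) * J X p ≤ (1 + u) * ((1 + u) * ((1 + u) * ((1 + u) * V))) :=
      mul_le_mul_of_nonneg_left a3 (by linarith)
    have a5 : (1 + u) * ((1 + u) * ((1 + u) * ((1 + u) * V))) ≤ (1 + 15 * u) * V := by
      have e1 : (1 + u) * ((1 + u) * ((1 + u) * ((1 + u) * V))) =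
          (1 + u) ^ 4 * V := by ring
      rw [e1]
      apply mul_le_mul_of_nonneg_right _ hV0.le
      have e2 : u ^ 2 ≤ u := by nlinarith
      have e3 : u ^ 3 ≤ u := by
        calc u ^ 3 = u * u ^ 2 := by ring
          _ ≤ u * 1 := by
            apply mul_le_mul_of_nonneg_left _ hu0.le
            nlinarith
          _ = u := mul_one u
      have e4 : u ^ 4 ≤ u := by
        calc u ^ 4 = u * u ^ 3 := by ring
          _ ≤ u * 1 := by
            apply mul_le_mul_of_nonneg_left _ hu0.le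
            linarith
          _ = u := mul_one u
      have e5 : (1 + u) ^ 4 = 1 + 4 * u + 6 * u ^ 2 + 4 * u ^ 3 + u ^ 4 := by ring
      rw [e5]
      linarith
    linarith
  -- the lower bound
  have hlo : (1 - 6 * u) * V ≤ J X H := by
    have a1 := J_sub (X := X') (h₁ := p) (h₂ := h') (η := u) hX'0 hp0.le q0 hu0
    rw [q2] at a1
    have a2 : J X' H ≤ J X H := J_mono hHp.le hX'0 hX'X
    have a3 : J (X' + p) h' ≤ J (X + p) h' := J_mono q0 (by linarith) (by linarith)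
    have a4 : (1 + 1 / u) * J (X' + p) h' ≤ (1 + 1 / u) * J (X + p) h' := by gcongr
    have a5 : (1 + u) * J X' H ≤ (1 + u) * J X H := by gcongr
    have a6 : (1 - u) ^ 3 * V ≤ X / l * p * (L - k * g - g) := by
      have e1 : (1 - u) * (L - r) ≤ L - k * g - g := by linarith
      have e2 : (1 - u) * X ≤ X / l := by
        rw [le_div_iff₀ hl0]
        have : (1 - u) * l ≤ 1 := by nlinarith
        nlinarith
      have e3 : (1 - u) * H ≤ p := by
        have e4 : H / l ≤ p := by rw [div_le_iff₀ hl0]; linarith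
        have e5 : (1 - u) * H ≤ H / l := by
          rw [le_div_iff₀ hl0]
          have : (1 - u) * l ≤ 1 := by nlinarith
          nlinarith
        linarith
      have e6 : 0 ≤ 1 - u := by linarith
      calc (1 - u) ^ 3 * V = ((1 - u) * X) * ((1 - u) * H) * ((1 - u) * (L - r)) := by
            rw [hV]; ring
        _ ≤ X / l * p * (L - k * g - g) := by gcongr
    have a7 : (1 - u) * ((1 - u) ^ 3 * V) ≤ (1 - u) * (X / l * p * (L - k * g - g)) :=
      mul_le_mul_of_nonneg_left a6 (by linarith)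
    have a8 : (1 - 4 * u) * V ≤ (1 - u) * ((1 - u) ^ 3 * V) := by
      have e1 : (1 - u) * ((1 - u) ^ 3 * V) = (1 - u) ^ 4 * V := by ring
      rw [e1]
      apply mul_le_mul_of_nonneg_right _ hV0.le
      have e2 : (1 - u) ^ 4 - (1 - 4 * u) = u ^ 2 * (6 - 4 * u + u ^ 2) := by ring
      have e3 : 0 ≤ u ^ 2 * (6 - 4 * u + u ^ 2) := by
        have : 0 ≤ 6 - 4 * u + u ^ 2 := by nlinarith
        positivity
      linarith
    have a9 : (1 - 5 * u) * V ≤ (1 + u) * J X H := by linarith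
    have a10 : (1 + u) * ((1 - 6 * u) * V) ≤ (1 + u) * J X H := by
      refine le_trans ?_ a9
      have : (1 + u) * (1 - 6 * u) ≤ 1 - 5 * u := by nlinarith
      calc (1 + u) * ((1 - 6 * u) * V) = (1 + u) * (1 - 6 * u) * V := by ring
        _ ≤ _ := mul_le_mul_of_nonneg_right this hV0.le
    exact le_of_mul_le_mul_left a10 (by linarith)
  rw [hDX, ← hV, abs_le]
  constructor
  · have : 1 - 6 * u ≤ J X H / V := by rwa [le_div_iff₀ hV0]
    linarith
  · have : J X H / V ≤ 1 + 16 * u := by rwa [div_le_iff₀ hV0]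
    linarith

theorem GM_net (h : GM) {l : ℝ} (hl : 1 < l) : Net l := by
  intro ε η hε hη
  have hl0 : 0 < l := by linarith
  have h1 : Tendsto (fun j : ℕ => l ^ j) atTop atTop := tendsto_pow_atTop_atTop_of_one_lt hl
  obtain ⟨j₀, hj₀⟩ := (h1.eventually (h ε η hε hη)).exists_forall_of_atTop
  refine ⟨j₀, fun j k hj hk1 hk2 => hj₀ j hj (l ^ k) ?_ ?_⟩
  · rw [← Real.rpow_natCast, ← Real.rpow_natCast, ← Real.rpow_mul hl0.le]
    exact Real.rpow_le_rpow_of_exponent_le hl.le (by linarith)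
  · rw [← Real.rpow_natCast, ← Real.rpow_natCast, ← Real.rpow_mul hl0.le]
    exact Real.rpow_le_rpow_of_exponent_le hl.le (by linarith)

end Pool.Agent.Q85.PN
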