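import Pool.Agent.Q85.PN.Bas

/-! # The order of magnitude from a net -/

set_option autoImplicit false

open MeasureTheory Set Filter Topology

namespace Pool.Agent.Q85.PN

/-- the index of `T` -/
lemma idx {l : ℝ} (hl : 1 < l) {T : ℝ} (hT : 1 ≤ T) : ∃ j : ℕ,
    j * Real.log l ≤ Real.log T ∧ Real.log T < (j + 1) * Real.log l ∧ l ^ j ≤ T ∧
      T ≤ l * l ^ j := by
  have hL : 0 < Real.log l := Real.log_pos hl
  have hlT : 0 ≤ Real.log T := Real.log_nonneg hT
  obtain ⟨j, hj⟩ : ∃ j : ℕ, j = ⌊Real.log T / Real.log l⌋₊ := ⟨_, rfl⟩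
  have h1 := Nat.floor_le (show 0 ≤ Real.log T / Real.log l by positivity)
  have h2 := Nat.lt_floor_add_one (Real.log T / Real.log l)
  rw [← hj] at h1 h2
  rw [le_div_iff₀ hL] at h1
  rw [div_lt_iff₀ hL] at h2
  refine ⟨j, h1, h2, ?_, ?_⟩
  · rw [← Real.log_le_log_iff (by positivity) (by linarith), Real.log_pow]
    exact h1
  · rw [← pow_succ', ← Real.log_le_log_iff (by linarith) (by positivity), Real.log_pow]
    push_cast
    exact h2.le

/-- `h X log (X / h)` -/
noncomputable def D (X h : ℝ) : ℝ := h * X * Real.log (X / h)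

/-- the asymptotic relation on the net `X = l ^ j`, `h = l ^ k` -/
def Net (l : ℝ) : Prop := ∀ ε η : ℝ, 0 < ε → 0 < η → ∃ j₀ : ℕ, ∀ j k : ℕ, j₀ ≤ j →
  ε * j ≤ k → (k : ℝ) ≤ (1 - ε) * j → |J (l ^ j) (l ^ k) / D (l ^ j) (l ^ k) - 1| ≤ η

lemma D_net {l : ℝ} (hl : 1 < l) (j k : ℕ) :
    D (l ^ j) (l ^ k) = l ^ k * l ^ j * (j * Real.log l - k * Real.log l) := by
  have h0 : 0 < l := by linarith
  unfold D
  rw [Real.log_div (by positivity) (by positivity), Real.log_pow, Real.log_pow]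

/-- the net and all `X` -/
theorem netA {l : ℝ} (hl : 1 < l) (h : Net l) {ε η : ℝ} (hε : 0 < ε) (hε1 : ε < 1)
    (hη : 0 < η) (hη1 : η ≤ 1) :
    ∀ᶠ X : ℝ in atTop, ∀ k : ℕ, 2 * ε * Real.log X ≤ k * Real.log l →
      k * Real.log l ≤ (1 - 2 * ε) * Real.log X →
      J X (l ^ k) ≤ (1 + η) * (l * X * l ^ k * (Real.log X - k * Real.log l + Real.log l)) ∧
      ∃ X' : ℝ, 0 ≤ X' ∧ X' ≤ X ∧
        (1 - η) * (X / l * l ^ k * (Real.log X - k * Real.log l - Real.log l)) ≤
          J X' (l ^ k) := by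
  obtain ⟨j₀, hj₀⟩ := h ε η hε hη
  have hll : 0 < Real.log l := Real.log_pos hl
  have hl0 : 0 < l := by linarith
  filter_upwards [eventually_ge_atTop 1,
    Real.tendsto_log_atTop.eventually_ge_atTop (Real.log l / ε),
    Real.tendsto_log_atTop.eventually_ge_atTop ((j₀ + 1) * Real.log l)] with X h1 h2 h3 k hk1 hk2
  obtain ⟨j, a1, a2, a3, a4⟩ := idx hl h1
  have hX0 : 0 < X := by linarith
  obtain ⟨L, hL⟩ : ∃ L : ℝ, L = Real.log X := ⟨_, rfl⟩
  obtain ⟨g, hg⟩ : ∃ g : ℝ, g = Real.log l := ⟨_, rfl⟩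
  rw [← hg] at hll h2 h3 hk1 hk2 a1 a2 ⊢
  rw [← hL] at h2 h3 hk1 hk2 a1 a2 ⊢
  rw [div_le_iff₀ hε] at h2
  have hjj : j₀ ≤ j := by
    have : ((j₀ + 1 : ℕ) : ℝ) * g < ((j + 1 : ℕ) : ℝ) * g := by push_cast; linarith
    have := lt_of_mul_lt_mul_right this hll.le
    have : j₀ + 1 < j + 1 := by exact_mod_cast this
    omega
  have hgL : g ≤ L := by nlinarith
  -- the net conditions
  have c1 : ε * ((j + 1 : ℕ) : ℝ) ≤ k := by
    have : ε * ((j + 1 : ℕ) : ℝ) * g ≤ k * g := by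
      push_cast
      nlinarith
    exact le_of_mul_le_mul_right this hll
  have c2 : (k : ℝ) ≤ (1 - ε) * j := by
    have : (k : ℝ) * g ≤ (1 - ε) * j * g := by
      have e1 : L - g ≤ j * g := by linarith
      have e2 : (1 - ε) * (L - g) ≤ (1 - ε) * (j * g) :=
        mul_le_mul_of_nonneg_left e1 (by linarith)
      nlinarith
    exact le_of_mul_le_mul_right this hll
  have c3 : ε * (j : ℝ) ≤ k := by
    refine le_trans ?_ c1
    push_cast
    nlinarith
  have c4 : (k : ℝ) ≤ (1 - ε) * ((j + 1 : ℕ) : ℝ) := by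
    refine c2.trans ?_
    push_cast
    nlinarith
  have hkj : (k : ℝ) * g < j * g := by
    have e1 : (k : ℝ) * g ≤ (1 - ε) * j * g := mul_le_mul_of_nonneg_right c2 hll.le
    have e2 : 0 < (j : ℝ) * g := by
      have : L - g < j * g := by linarith
      by_contra hcon
      push Not at hcon
      nlinarith
    nlinarith
  constructor
  · have n1 := hj₀ (j + 1) k (by omega) c1 c4
    rw [D_net hl] at n1
    push_cast at n1
    rw [← hg] at n1
    have hD : 0 < l ^ k * l ^ (j + 1) * ((j + 1) * g - k * g) := by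
      have : 0 < ((j : ℝ) + 1) * g - k * g := by linarith
      positivity
    have n2 := (abs_le.1 n1).2
    have n3 : J (l ^ (j + 1)) (l ^ k) ≤ (1 + η) * (l ^ k * l ^ (j + 1) * ((j + 1) * g - k * g)) := by
      have : J (l ^ (j + 1)) (l ^ k) / (l ^ k * l ^ (j + 1) * ((j + 1) * g - k * g)) ≤ 1 + η := by
        linarith
      rwa [div_le_iff₀ hD] at this
    have n4 : J X (l ^ k) ≤ J (l ^ (j + 1)) (l ^ k) :=
      J_mono (by positivity) hX0.le (by rw [pow_succ']; exact a4)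
    refine n4.trans (n3.trans ?_)
    apply mul_le_mul_of_nonneg_left _ (by linarith)
    have e1 : l ^ (j + 1) ≤ l * X := by
      rw [pow_succ']
      gcongr
    have e2 : ((j : ℝ) + 1) * g - k * g ≤ L - k * g + g := by linarith
    calc l ^ k * l ^ (j + 1) * ((j + 1) * g - k * g) ≤ l ^ k * (l * X) * (L - k * g + g) := by
          have : 0 < ((j : ℝ) + 1) * g - k * g := by linarith
          gcongr
      _ = _ := by ring
  · have n1 := hj₀ j k hjj c3 c2
    rw [D_net hl, ← hg] at n1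
    have hD : 0 < l ^ k * l ^ j * (j * g - k * g) := by
      have : 0 < (j : ℝ) * g - k * g := by linarith
      positivity
    have n2 := (abs_le.1 n1).1
    have n3 : (1 - η) * (l ^ k * l ^ j * (j * g - k * g)) ≤ J (l ^ j) (l ^ k) := by
      have : 1 - η ≤ J (l ^ j) (l ^ k) / (l ^ k * l ^ j * (j * g - k * g)) := by
        linarith
      rwa [le_div_iff₀ hD] at this
    refine ⟨l ^ j, by positivity, a3, le_trans ?_ n3⟩
    apply mul_le_mul_of_nonneg_left _ (by linarith)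
    have e1 : X / l ≤ l ^ j := by
      rw [div_le_iff₀ hl0]
      linarith
    have e2 : L - k * g - g ≤ j * g - k * g := by linarith
    calc X / l * l ^ k * (L - k * g - g) ≤ X / l * l ^ k * (j * g - k * g) := by gcongr
      _ ≤ l ^ j * l ^ k * (j * g - k * g) := by
        have : 0 < (j : ℝ) * g - k * g := by linarith
        gcongr
      _ = _ := by ring

/-- the recursion -/
theorem rec_bound {l X m M B L : ℝ} (hl : 1 < l) (hl2 : l ≤ 2) (hm : 1 ≤ m) (hMX : M ≤ X)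
    (hL : 0 ≤ L) (hX : 0 ≤ X)
    (hnet : ∀ k : ℕ, m / 2 ≤ l ^ k → l ^ k ≤ M → J (2 * X) (l ^ k) ≤ 16 * (X * l ^ k * L))
    (hbase : ∀ h : ℝ, 0 ≤ h → h ≤ m → J (2 * X - h) h ≤ B) (n : ℕ) :
    ∀ h : ℝ, 0 ≤ h → h ≤ 2 ^ n * m → h ≤ M →
      J (2 * X - h) h ≤ 192 * (h * X * L) + B * (4 / 3) ^ n := by
  have hl0 : 0 < l := by linarith
  have hB : 0 ≤ B := (J_nonneg (by linarith : (0 : ℝ) ≤ 2 * X - 0) 0).trans
    (hbase 0 le_rfl (by linarith))
  induction n with
  | zero =>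
    intro h h0 h1 _
    rw [pow_zero, one_mul] at h1
    have := hbase h h0 h1
    have h3 : 0 ≤ h * X * L := by positivity
    rw [pow_zero]
    linarith
  | succ n ih =>
    intro h h0 h1 h2
    have hpow : (1 : ℝ) ≤ (4 / 3) ^ n := one_le_pow₀ (by norm_num)
    rcases le_total h m with h3 | h3
    · have h4 := hbase h h0 h3
      have h5 : 0 ≤ h * X * L := by positivity
      have h6 : B ≤ B * (4 / 3) ^ (n + 1) := by
        have : (1 : ℝ) ≤ (4 / 3) ^ (n + 1) := one_le_pow₀ (by norm_num)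
        nlinarith
      linarith
    · obtain ⟨k, -, -, k3, k4⟩ := idx hl (show 1 ≤ h by linarith)
      have k5 : h ≤ 2 * l ^ k := k4.trans (by gcongr)
      obtain ⟨h', hh'⟩ : ∃ h' : ℝ, h' = h - l ^ k := ⟨_, rfl⟩
      have p0 : 0 ≤ h' := by linarith
      have p1 : h' ≤ h / 2 := by linarith
      have hk0 : 0 < l ^ k := by positivity
      have e1 : l ^ k + h' = h := by rw [hh']; ring
      have a1 := J_add (X := 2 * X - h) (h₁ := l ^ k) (h₂ := h') (η := 3) (by linarith) hk0.le p0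
        (by norm_num)
      rw [e1] at a1
      have e2 : 2 * X - h + l ^ k = 2 * X - h' := by rw [hh']; ring
      rw [e2] at a1
      have a2 : J (2 * X - h) (l ^ k) ≤ J (2 * X) (l ^ k) :=
        J_mono hk0.le (by linarith) (by linarith)
      have a3 := hnet k (by linarith) (by linarith)
      have a4 := ih h' p0 (by rw [pow_succ] at h1; linarith) (by linarith)
      have a5 : X * l ^ k * L ≤ X * h * L := by gcongr
      have a6 : h' * X * L ≤ h / 2 * X * L := by gcongr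
      have a7 : B * (4 / 3) ^ (n + 1) = 4 / 3 * (B * (4 / 3) ^ n) := by rw [pow_succ]; ring
      rw [a7]
      have a8 : (1 : ℝ) + 1 / 3 = 4 / 3 := by norm_num
      rw [a8] at a1
      linarith

/-- the number of steps -/
lemma steps {H m : ℝ} (hm : 1 ≤ m) (hH : m ≤ H) : ∃ n : ℕ, H ≤ 2 ^ n * m ∧
    ((4 / 3 : ℝ) ^ n) ^ 2 * m ≤ 2 * H := by
  obtain ⟨n, -, -, h3, h4⟩ := idx (show (1 : ℝ) < 2 by norm_num)
    (show 1 ≤ H / m by rw [le_div_iff₀ (by linarith)]; linarith)
  have hm0 : 0 < m := by linarith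
  rw [le_div_iff₀ hm0] at h3
  rw [div_le_iff₀ hm0] at h4
  refine ⟨n + 1, by rw [pow_succ']; exact h4, ?_⟩
  have h5 : ((4 / 3 : ℝ) ^ (n + 1)) ^ 2 ≤ 2 ^ (n + 1) := by
    rw [← pow_mul, mul_comm, pow_mul]
    exact pow_le_pow_left₀ (by norm_num) (by norm_num) _
  calc ((4 / 3 : ℝ) ^ (n + 1)) ^ 2 * m ≤ 2 ^ (n + 1) * m := by gcongr
    _ = 2 * (2 ^ n * m) := by rw [pow_succ]; ring
    _ ≤ _ := by gcongr

end Pool.Agent.Q85.PN
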